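import Pool.Agent.H8.SPf

namespace Pool.Agent.Results.MP_8f05cb_co.Sparsest

open Pool.Agent.H8.SP

lemma m_le {n e : ℕ} (h : Attained n e) : m n ≤ (e : ℕ∞) := sInf_le ⟨e, h, rfl⟩

lemma lower {n e : ℕ} (h : Attained n e) : n ≤ e + 1 := by
  obtain ⟨V, hV, G, hn, hG, _, he⟩ := h
  have h1 := hG.card_vert_le_card_edgeSet_add_one
  rw [Nat.card_eq_fintype_card, hn, Nat.card_coe_set_eq, he] at h1
  exact h1

theorem upper (n : ℕ) (hn : 2 ≤ n) :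
    ∃ e : ℕ, m n ≤ ((n + e : ℕ) : ℕ∞) ∧ e ^ 4 ≤ 200000 ^ 3 * n := by
  rcases Nat.lt_or_ge n 200000 with h | h
  · refine ⟨n, ?_, ?_⟩
    · rcases Nat.lt_or_ge n 3 with h3 | h3
      · have : n = 2 := by omega
        subst this
        exact (m_le attained_K2).trans (by norm_num)
      · have h4 := attained_two (n - 2) (by omega)
        have e1 : n - 2 + 2 = n := by omega
        rw [e1] at h4
        refine (m_le h4).trans ?_
        exact_mod_cast (by omega : 2 * (n - 2) ≤ n + n)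
    · have h1 : n ^ 3 ≤ 200000 ^ 3 := Nat.pow_le_pow_left h.le 3
      calc n ^ 4 = n ^ 3 * n := by ring
        _ ≤ 200000 ^ 3 * n := Nat.mul_le_mul_right _ h1
  · obtain ⟨e, he, he4⟩ := large n h
    exact ⟨e, m_le he, he4.trans (Nat.mul_le_mul_right _ (by norm_num))⟩

theorem fin (n : ℕ) (hn : 2 ≤ n) : m n ≠ ⊤ := by
  obtain ⟨e, he, _⟩ := upper n hn
  exact ne_top_of_le_ne_top (ENat.natCast_ne_top _) he

theorem low (n : ℕ) (hn : 2 ≤ n) : (n : ℕ∞) ≤ m n + 1 := by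
  have h1 : ((n - 1 : ℕ) : ℕ∞) ≤ m n := by
    refine le_sInf ?_
    rintro _ ⟨e, he, rfl⟩
    have := lower he
    show ((n - 1 : ℕ) : ℕ∞) ≤ (e : ℕ∞)
    exact_mod_cast (by omega : n - 1 ≤ e)
  calc (n : ℕ∞) = ((n - 1 : ℕ) : ℕ∞) + 1 := by
        exact_mod_cast (by omega : n = n - 1 + 1)
    _ ≤ m n + 1 := by gcongr

theorem toNat_bounds (n : ℕ) (hn : 2 ≤ n) : ∃ e : ℕ, (m n).toNat ≤ n + e ∧
    n ≤ (m n).toNat + 1 ∧ e ^ 4 ≤ 200000 ^ 3 * n := by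
  obtain ⟨e, he, he4⟩ := upper n hn
  obtain ⟨x, hx⟩ := ENat.ne_top_iff_exists.mp (fin n hn)
  have hl := low n hn
  rw [← hx] at he hl
  refine ⟨e, ?_, ?_, he4⟩
  · rw [← hx, ENat.toNat_natCast]
    exact_mod_cast he
  · rw [← hx, ENat.toNat_natCast]
    exact_mod_cast hl

theorem result :
    (∀ n : ℕ, 2 ≤ n → m n ≠ ⊤ ∧ (n : ℕ∞) ≤ m n + 1) ∧
    (∃ C : ℝ, ∀ n : ℕ, 2 ≤ n → ((m n).toNat : ℝ) ≤ n + C * (n : ℝ) ^ (1 / 4 : ℝ)) ∧
    Filter.Tendsto (fun n : ℕ => ((m n).toNat : ℝ) / n) Filter.atTop (nhds 1) ∧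
    (∀ n : ℕ, 3 ≤ n → m n ≤ ((2 * n - 4 : ℕ) : ℕ∞)) ∧
    (∀ p : ℕ, Odd p → 3 ≤ p →
      m (2 * p ^ 2 * (p ^ 2 - 1)) ≤ ((2 * p ^ 2 * (p ^ 2 - 1) : ℕ) : ℕ∞)) := by
  have key : ∀ n : ℕ, 2 ≤ n →
      ((m n).toNat : ℝ) ≤ n + (200000 ^ 3 : ℝ) ^ (1 / 4 : ℝ) * (n : ℝ) ^ (1 / 4 : ℝ) := by
    intro n hn
    obtain ⟨e, he, _, he4⟩ := toNat_bounds n hn
    have h1 : ((m n).toNat : ℝ) ≤ n + e := by exact_mod_cast he
    have h2 : (e : ℝ) ≤ (200000 ^ 3 : ℝ) ^ (1 / 4 : ℝ) * (n : ℝ) ^ (1 / 4 : ℝ) := by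
      rw [← Real.mul_rpow (by positivity) (by positivity)]
      have h3 : (e : ℝ) ^ 4 ≤ 200000 ^ 3 * n := by exact_mod_cast he4
      have h4 : (e : ℝ) = ((e : ℝ) ^ (4 : ℕ)) ^ (1 / 4 : ℝ) := by
        rw [← Real.rpow_natCast, ← Real.rpow_mul (by positivity)]
        norm_num
      rw [h4]
      exact Real.rpow_le_rpow (by positivity) h3 (by norm_num)
    linarith
  refine ⟨fun n hn => ⟨fin n hn, low n hn⟩, ⟨_, key⟩, ?_, ?_, ?_⟩
  · have hup : Filter.Tendsto (fun n : ℕ => 1 + (200000 ^ 3 : ℝ) ^ (1 / 4 : ℝ) *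
        (n : ℝ) ^ (-(3 / 4) : ℝ)) Filter.atTop (nhds 1) := by
      have h1 : Filter.Tendsto (fun n : ℕ => (n : ℝ) ^ (-(3 / 4) : ℝ)) Filter.atTop (nhds 0) :=
        (tendsto_rpow_neg_atTop (by norm_num : (0 : ℝ) < 3 / 4)).comp
          tendsto_natCast_atTop_atTop
      have h2 := (h1.const_mul ((200000 ^ 3 : ℝ) ^ (1 / 4 : ℝ))).const_add 1
      simpa using h2
    have hlo : Filter.Tendsto (fun n : ℕ => 1 - (1 : ℝ) / n) Filter.atTop (nhds 1) := by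
      have h2 := (tendsto_one_div_atTop_nhds_zero_nat (𝕜 := ℝ)).const_sub 1
      simpa using h2
    refine tendsto_of_tendsto_of_tendsto_of_le_of_le' hlo hup ?_ ?_
    · filter_upwards [Filter.eventually_ge_atTop 2] with n hn
      obtain ⟨e, _, h1, _⟩ := toNat_bounds n hn
      have h2 : (n : ℝ) ≤ (m n).toNat + 1 := by exact_mod_cast h1
      have hn0 : (0 : ℝ) < n := by positivity
      rw [le_div_iff₀ hn0, sub_mul, one_div_mul_cancel hn0.ne']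
      linarith
    · filter_upwards [Filter.eventually_ge_atTop 2] with n hn
      have hn0 : (0 : ℝ) < n := by positivity
      rw [div_le_iff₀ hn0, add_mul, mul_assoc]
      have : (n : ℝ) ^ (-(3 / 4) : ℝ) * n = (n : ℝ) ^ (1 / 4 : ℝ) := by
        nth_rw 2 [← Real.rpow_one (n : ℝ)]
        rw [← Real.rpow_add hn0]
        norm_num
      rw [this, one_mul]
      exact key n hn
  · intro n hn
    have h4 := attained_two (n - 2) (by omega)
    have e1 : n - 2 + 2 = n := by omega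
    have e2 : 2 * (n - 2) = 2 * n - 4 := by omega
    rw [e1, e2] at h4
    exact m_le h4
  · intro p hp hp3
    exact m_le (attained_base hp hp3)

end Pool.Agent.Results.MP_8f05cb_co.Sparsest
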